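import Pool.Agent.Helper76.TX.StAn

/-!
# Project TX, module AN5: the Mellin transform of the twisted sum as a Dirichlet series
-/

set_option autoImplicit false

open UpperHalfPlane CongruenceSubgroup
open scoped MatrixGroups

namespace Pool.Agent.Helper55.TX

open Pool.Agent.Helper76.TX Pool.Agent.Helper14.CV

private lemma sp5 (N : ℕ) : (1 : ℝ) ∈ (G0 N).strictPeriods := by
  simp

private lemma fc5 {N : ℕ} (hN : NeZero N) (f : CuspForm (G0 N) 2) : fc f 0 = 0 := by
  unfold fc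
  rw [UpperHalfPlane.qExpansion_coeff_zero one_pos
    (ModularFormClass.analyticAt_cuspFunction_zero f one_pos (sp5 N))
    (SlashInvariantFormClass.periodic_comp_ofComplex f (sp5 N))]
  exact (CuspFormClass.zero_at_infty f).valueAtInfty_eq_zero

private lemma bo5 {N : ℕ} (hN : NeZero N) (f : CuspForm (G0 N) 2) :
    (fun m : ℕ => fc f m) =O[Filter.atTop] fun m : ℕ => (m : ℝ) := by
  have h := CuspFormClass.qExpansion_isBigO f
  rw [CongruenceSubgroup.strictWidthInfty_Gamma0] at h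
  have e : (fun n : ℕ => (n : ℝ) ^ (((2 : ℤ) : ℝ) / 2)) = fun n : ℕ => (n : ℝ) := by
    funext n
    norm_num
  rw [e] at h
  exact h

theorem hAN5 : StAN5 := by
  intro h4 h1 h3 N hN f D hD χ hχ s hs
  have hpi := Real.pi_pos
  refine hasSum_mellin (a := fun m : ℕ => tau χ * χ (m : ZMod D) * fc f m)
    (p := fun m : ℕ => 2 * Real.pi * m) ?_ (by linarith) ?_ ?_
  · intro m
    rcases Nat.eq_zero_or_pos m with hm | hm
    · left
      rw [hm, fc5 hN f, mul_zero]
    · right
      have : (0 : ℝ) < m := by exact_mod_cast hm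
      positivity
  · intro t ht
    exact h4 h1 h3 N hN f D hD χ hχ t ht
  · have h5 := bo5 hN f
    have hg : Summable (fun m : ℕ => (m : ℝ) ^ (1 - s.re)) := Real.summable_nat_rpow.mpr (by linarith)
    refine summable_of_isBigO_nat hg ?_
    obtain ⟨C, hC⟩ := h5.bound
    refine Asymptotics.IsBigO.of_bound (‖tau χ‖ * C / (2 * Real.pi) ^ s.re) ?_
    filter_upwards [hC, Filter.eventually_ge_atTop 1] with m hm hm1
    have hm0 : (0 : ℝ) < m := by exact_mod_cast hm1
    have e1 : (2 * Real.pi * m) ^ s.re = (2 * Real.pi) ^ s.re * (m : ℝ) ^ s.re :=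
      Real.mul_rpow (by positivity) hm0.le
    have e2 : (m : ℝ) ^ (1 - s.re) = (m : ℝ) / (m : ℝ) ^ s.re := by
      rw [Real.rpow_sub hm0, Real.rpow_one]
    have hx : ‖χ (m : ZMod D)‖ ≤ 1 := DirichletCharacter.norm_le_one χ _
    have hp1 : (0 : ℝ) < (2 * Real.pi) ^ s.re := by positivity
    have hp2 : (0 : ℝ) < (m : ℝ) ^ s.re := by positivity
    rw [e1, e2, Real.norm_of_nonneg (by positivity), Real.norm_of_nonneg (by positivity)]
    have e3 : ‖tau χ * χ (m : ZMod D) * fc f m‖ ≤ ‖tau χ‖ * (C * m) := by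
      rw [norm_mul, norm_mul]
      have h6 : ‖fc f m‖ ≤ C * m := by
        have := hm
        rwa [Real.norm_of_nonneg hm0.le] at this
      have h7 : 0 ≤ C * m := (norm_nonneg _).trans h6
      calc ‖tau χ‖ * ‖χ (m : ZMod D)‖ * ‖fc f m‖ ≤ ‖tau χ‖ * 1 * (C * m) := by gcongr
        _ = ‖tau χ‖ * (C * m) := by ring
    calc ‖tau χ * χ (m : ZMod D) * fc f m‖ / ((2 * Real.pi) ^ s.re * (m : ℝ) ^ s.re)
        ≤ ‖tau χ‖ * (C * m) / ((2 * Real.pi) ^ s.re * (m : ℝ) ^ s.re) := by gcongr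
      _ = ‖tau χ‖ * C / (2 * Real.pi) ^ s.re * ((m : ℝ) / (m : ℝ) ^ s.re) := by
        field_simp

end Pool.Agent.Helper55.TX
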